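import Mathlib
import Pool.Agent.Lib.helper23.KazF
import Pool.Agent.Lib.helper23.KazG

set_option autoImplicit false

namespace Pool.Agent.Results.MP_99d66e_al.Main

open Filter

universe u

section

variable {Y H : Type} [NormedAddCommGroup H] [InnerProductSpace ℂ H]

/-- matrix entry of an operator -/
noncomputable def entry (b : HilbertBasis Y ℂ H) (T : H →L[ℂ] H) (x y : Y) : ℂ :=
  inner ℂ (b y) (T (b x))

/-- the algebraic Roe algebra: bounded operators of finite propagation -/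
def Roe (b : HilbertBasis Y ℂ H) (G : SimpleGraph Y) : Set (H →L[ℂ] H) :=
  {T | ∃ R : ℕ, ∀ x y, entry b T x y ≠ 0 → G.edist x y ≤ R}

/-- the Laplacian -/
def IsLap (b : HilbertBasis Y ℂ H) (G : SimpleGraph Y) (L : H →L[ℂ] H) : Prop :=
  (∀ x, entry b L x x = (G.neighborSet x).ncard) ∧ (∀ x y, G.Adj x y → entry b L x y = -1) ∧
    ∀ x y, x ≠ y → ¬ G.Adj x y → entry b L x y = 0

end

/-- box spaces of graphs -/
def Box {Y : Type} (G : SimpleGraph Y) (l : Y → ℕ) : Prop :=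
  (∀ x y, G.Adj x y → l x = l y) ∧ (∀ i, {x | l x = i}.Finite) ∧
    Tendsto (fun i => {x | l x = i}.ncard) atTop atTop ∧
    ∃ D : ℕ, ∀ x, (G.neighborSet x).Finite ∧ (G.neighborSet x).ncard ≤ D

/-- unital star homomorphisms defined on a subset `P` of a C-star algebra -/
def IsRep {B : Type} [CStarAlgebra B] (P : Set B) {A : Type u} [CStarAlgebra A] (π : B → A) :
    Prop :=
  π 1 = 1 ∧ (∀ S ∈ P, ∀ T ∈ P, π (S + T) = π S + π T ∧ π (S * T) = π S * π T) ∧
    (∀ a : ℂ, ∀ T ∈ P, π (a • T) = a • π T) ∧ ∀ T ∈ P, π (star T) = star (π T)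

/-- a uniform spectral gap in all unital star representations -/
def Gap {B : Type} [CStarAlgebra B] (P : Set B) (L : B) : Prop :=
  ∃ c : ℝ, 0 < c ∧ ∀ (A : Type u) [CStarAlgebra A] (π : B → A), IsRep P π →
    spectrum ℂ (π L) ⊆ {z : ℂ | z = 0 ∨ (z.im = 0 ∧ c ≤ z.re)}

/-- `L ^ 2 - c L` is a sum of squares of elements of `P` for some positive `c` -/
def SOS {B : Type} [CStarAlgebra B] (P : Set B) (L : B) : Prop :=
  ∃ c : ℝ, 0 < c ∧ ∃ (m : ℕ) (ξ : Fin m → B), (∀ k, ξ k ∈ P) ∧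
    L * L - (c : ℂ) • L = ∑ k, star (ξ k) * ξ k

theorem result : ∃ (Y H : Type) (_ : NormedAddCommGroup H) (_ : InnerProductSpace ℂ H)
    (_ : CompleteSpace H) (b : HilbertBasis Y ℂ H) (G : SimpleGraph Y) (l : Y → ℕ)
    (L : H →L[ℂ] H), Box G l ∧ IsLap b G L ∧ Gap.{u} (Roe b G) L ∧ ¬ SOS (Roe b G) L := by
  classical
  have d := Pool.Agent.Lib.helper23.KazG.dat
  let b : HilbertBasis Pool.Agent.Lib.helper23.KazD.X0 ℂ _ := .ofRepr (.refl ℂ _)
  have hb : ∀ x, b x = lp.single 2 x 1 := fun x => (b.repr_symm_single x).symm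
  have hR : ∀ T, T ∈ Roe b d.G ↔ _ := fun T => by
    simp only [Roe, entry, hb, Set.mem_setOf_eq]
    exact Iff.rfl
  refine ⟨_, _, _, _, inferInstance, b, d.G, _,
    Pool.Agent.Lib.helper23.KazC.Lap Pool.Agent.Lib.helper23.KazD.s0
      Pool.Agent.Lib.helper23.KazG.jf2.toPerm,
    ⟨d.ladj, d.lf, tendsto_atTop_mono (fun n => (Nat.le_succ n).trans (d.big n)) tendsto_id,
      d.deg⟩, ?_, ⟨1 / 2, by norm_num, fun A _ π h => ?_⟩, ?_⟩
  · simp only [IsLap, entry, hb]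
    exact ⟨d.e1, d.e2, d.e3⟩
  · letI := CStarAlgebra.spectralOrder A
    haveI := CStarAlgebra.spectralOrderedRing A
    exact d.gap (Roe b d.G) hR π h.1 h.2.1 h.2.2.1 h.2.2.2
  · rintro ⟨c, hc, m, ξ, h1, h2⟩
    exact Pool.Agent.Lib.helper23.KazF.nosos d c hc m ξ (fun k => (hR _).1 (h1 k))
      (by rw [← h2, Complex.coe_smul]; rfl)

end Pool.Agent.Results.MP_99d66e_al.Main
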